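import Pool.Agent.Q192.FD.Main

/-!
# Frames which force finitely many prescribed normal directions

For all nonzero vectors `ξ_1, ..., ξ_k` of `ℝ³` there is a smooth embedded closed curve such that
every smooth immersed disc spanned by it has, for each `i`, a point where the tangent plane is
orthogonal to `ξ_i`.

Outline.  The curve is close to a circle traversed twice.  In suitable linear coordinates
`(X, Y, Z)` the heights `⟨·, ξ_i⟩` are multiples of `X + a_i Y + b_i Z` with `a_i` different from
zero (and different for nonparallel vectors), and the curve is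
`X = ρ cos 2t`, `Y = ρ sin 2t`, `ρ = 1 + δ R(t)`, `Z = δ cos t W(2t)` with explicit trigonometric
polynomials `R`, `W`, chosen such that for every `i` the height is
`q_i(2t) + δ p_i(2t)² K_i(t)`, where `q_i(s) = cos s + a_i sin s`, `p_i = -q_i'`.  So for small `δ`
each height has exactly four critical points, two absolute maxima and two absolute minima.

Let `f` be the height of a disc spanned by the curve and suppose that `f` has no critical point.
The set `{f ≥ c}` connects two different points of greatest height for some `c` above the least
value.  Near a level strictly between the extreme values the local structure (no critical point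
inside, and none on the boundary) shows that the connection persists to a larger `c`, and by
compactness it persists in the limit.  So the set of points of greatest height, which is a subset
of the boundary, connects two different points; but the height of the curve is greatest at two
points only.
-/

set_option autoImplicit false

open Set Metric
open scoped RealInnerProductSpace ContDiff

namespace Pool.Agent.Results.MP_873223_gt.NormalDirections

abbrev Plane := EuclideanSpace ℝ (Fin 2)

abbrev Space := EuclideanSpace ℝ (Fin 3)

/-- the closed unit disc of the plane -/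
def disc : Set Plane := closedBall 0 1

/-- `γ` is a smooth immersion of the circle `ℝ / 2πℤ` into space which is injective, so that
`range γ` is an embedded frame -/
structure IsEmbeddedFrame (γ : ℝ → Space) : Prop where
  smooth : ContDiff ℝ ∞ γ
  periodic : Function.Periodic γ (2 * Real.pi)
  immersed : ∀ t, deriv γ t ≠ 0
  injective : ∀ t t', γ t = γ t' → ∃ k : ℤ, t' = t + k * (2 * Real.pi)

/-- `H` is a smooth immersion of the closed unit disc into space which maps the unit circle
onto `l`: a membrane spanned by `l` -/
structure IsMembrane (H : Plane → Space) (l : Set Space) : Prop where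
  smooth : ContDiffOn ℝ ∞ H disc
  immersion : ∀ x ∈ disc, Function.Injective (fderivWithin ℝ H disc x)
  boundary : H '' sphere 0 1 = l

/-- at some point of the disc the tangent plane of `H` is orthogonal to `ξ` -/
def Realizes (H : Plane → Space) (ξ : Space) : Prop :=
  ∃ x ∈ disc, ∀ v : Plane, ⟪fderivWithin ℝ H disc x v, ξ⟫ = 0

/-- **Finitely many prescribed normal directions can be forced by a frame.** -/
theorem result (k : ℕ) (ξ : Fin k → Space) (hξ : ∀ i, ξ i ≠ 0) :
    ∃ γ : ℝ → Space, IsEmbeddedFrame γ ∧
      ∀ H : Plane → Space, IsMembrane H (range γ) → ∀ i, Realizes H (ξ i) := by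
  obtain ⟨γ, h1, h2, h3, h4, h5⟩ := Pool.Agent.Q192.FD.main k ξ hξ
  refine ⟨γ, ⟨h1.of_le le_top, h2, h3, h4⟩, fun H hH i => ?_⟩
  set L : ℂ ≃ₗᵢ[ℝ] Plane := Complex.orthonormalBasisOneI.repr with hL
  have hpre : L ⁻¹' disc = closedBall (0 : ℂ) 1 := by
    ext x
    simp only [disc, mem_preimage, mem_closedBall_zero_iff, L.norm_map]
  have hud : UniqueDiffOn ℝ (closedBall (0 : ℂ) 1) := uniqueDiffOn_convex (convex_closedBall _ _)
    (by
      rw [interior_closedBall _ one_ne_zero]
      exact ⟨0, mem_ball_self one_pos⟩)
  have hder : ∀ x ∈ closedBall (0 : ℂ) 1, ∀ v,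
      fderivWithin ℝ (H ∘ L) (closedBall (0 : ℂ) 1) x v = fderivWithin ℝ H disc (L x) (L v) := by
    intro x hx v
    have h6 := L.toContinuousLinearEquiv.comp_right_fderivWithin (f := H) (s := disc) (x := x)
      (by
        have : (⇑L.toContinuousLinearEquiv) ⁻¹' disc = closedBall (0 : ℂ) 1 := hpre
        rw [this]
        exact hud x hx)
    have h7 : (⇑L.toContinuousLinearEquiv) ⁻¹' disc = closedBall (0 : ℂ) 1 := hpre
    rw [h7] at h6
    have h8 : fderivWithin ℝ (H ∘ L) (closedBall (0 : ℂ) 1) x =
        (fderivWithin ℝ H disc (L x)).comp (L.toContinuousLinearEquiv : ℂ →L[ℝ] Plane) := h6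
    rw [h8]
    rfl
  have hmem : ∀ x ∈ closedBall (0 : ℂ) 1, L x ∈ disc := fun x hx => by
    rw [← hpre] at hx
    exact hx
  have hsm : ContDiffOn ℝ 1 (H ∘ L) (closedBall (0 : ℂ) 1) := by
    have h9 : ContDiffOn ℝ 1 H disc := hH.smooth.of_le (by simp)
    exact h9.comp L.contDiff.contDiffOn hmem
  obtain ⟨x, hx, hv⟩ := h5 (H ∘ L) hsm (fun x hx v w hvw => by
      rw [hder x hx, hder x hx] at hvw
      exact L.injective (hH.immersion (L x) (hmem x hx) hvw)) (by
      rw [← hH.boundary, image_comp]
      congr 1
      ext y
      constructor
      · rintro ⟨x, hx, rfl⟩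
        rw [mem_sphere_zero_iff_norm] at hx ⊢
        rw [L.norm_map, hx]
      · intro hy
        refine ⟨L.symm y, ?_, L.apply_symm_apply y⟩
        rw [mem_sphere_zero_iff_norm] at hy ⊢
        rw [L.symm.norm_map, hy]) i
  refine ⟨L x, hmem x hx, fun v => ?_⟩
  have h6 := hv (L.symm v)
  rw [hder x hx, L.apply_symm_apply] at h6
  exact h6

end Pool.Agent.Results.MP_873223_gt.NormalDirections
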